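import Mathlib

/-!
# Truthful cake cutting: no mechanism is positive and respects sole claimants

The cake is `[0,1]`, densities are piecewise constant, pieces are finite unions of intervals, and
part of the cake may be discarded.  For every number `n ≥ 2` of agents, a truthful mechanism that
gives each agent the part of the cake which only this agent values has a profile at which some
agent receives a piece of value zero.
-/

set_option autoImplicit false

namespace Pool.Agent.Results.MP_b3d40b_lc.SoleClaimant

open MeasureTheory Set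

/-- `f` is piecewise constant: there are finitely many points such that `f` is constant on every
interval that avoids them. -/
def PC {α : Type} (f : ℝ → α) : Prop :=
  ∃ S : Finset ℝ, ∀ x y, x ≤ y → (∀ s ∈ S, s ∉ Icc x y) → f x = f y

/-- A value density on the cake `[0,1]`: nonnegative, piecewise constant, with positive integral
(and extended by `0` outside the cake). -/
structure Density where
  /-- the density -/
  toFun : ℝ → ℝ
  nonneg : ∀ x, 0 ≤ toFun x
  outside : ∀ x, x ∉ Icc (0 : ℝ) 1 → toFun x = 0
  pc : PC toFun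
  positive : 0 < ∫ x in Icc (0 : ℝ) 1, toFun x

/-- The value of the set `X` for an agent with density `f`. -/
noncomputable def Density.value (f : Density) (X : Set ℝ) : ℝ := ∫ x in X, f.toFun x

/-- A deterministic direct revelation mechanism for `n` agents.  For all reported densities it
returns pairwise disjoint pieces of the cake, each a finite union of intervals (a set with
piecewise constant membership).  The pieces need not cover the cake. -/
structure Mechanism (n : ℕ) where
  /-- the piece of every agent, as a function of the reports -/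
  piece : (Fin n → Density) → Fin n → Set ℝ
  union_of_intervals : ∀ f i, PC (fun x => x ∈ piece f i)
  disjoint : ∀ f i j, i ≠ j → Disjoint (piece f i) (piece f j)
  subset : ∀ f i, piece f i ⊆ Icc 0 1

/-- A mechanism is truthful if no agent can increase the value of the own piece, computed with the
true density `f i`, by a different report `g`, whatever the reports of the other agents are. -/
def Mechanism.Truthful {n : ℕ} (M : Mechanism n) : Prop :=
  ∀ (f : Fin n → Density) (i : Fin n) (g : Density),
    (f i).value (M.piece (Function.update f i g) i) ≤ (f i).value (M.piece f i)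

/-- A mechanism respects sole claimants if at every profile almost every point of the cake which
exactly one agent `i` values (the reported density of `i` is positive there and all others vanish)
is in the piece of `i`. -/
def Mechanism.RespectsSoleClaimants {n : ℕ} (M : Mechanism n) : Prop :=
  ∀ (f : Fin n → Density) (i : Fin n),
    volume {x | 0 < (f i).toFun x ∧ (∀ j, j ≠ i → (f j).toFun x = 0) ∧ x ∉ M.piece f i} = 0

theorem PC.measurableSet {X : Set ℝ} (h : PC (fun x => x ∈ X)) : MeasurableSet X := by
  obtain ⟨S, hS⟩ := h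
  have h1 : X = (X ∩ (S : Set ℝ)) ∪ (X \ (S : Set ℝ)) := (inter_union_sdiff X S).symm
  rw [h1]
  refine ((S.finite_toSet.subset inter_subset_right).measurableSet).union ?_
  apply IsOpen.measurableSet
  rw [Metric.isOpen_iff]
  rintro x ⟨hxX, hxS⟩
  have hopen : IsOpen ((S : Set ℝ)ᶜ) := S.finite_toSet.isClosed.isOpen_compl
  obtain ⟨r, hr, hb⟩ := Metric.isOpen_iff.1 hopen x hxS
  refine ⟨r, hr, ?_⟩
  intro y hy
  have hyS : y ∉ (S : Set ℝ) := hb hy
  refine ⟨?_, hyS⟩
  rw [Metric.mem_ball, Real.dist_eq, abs_lt] at hy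
  rcases le_total x y with hxy | hxy
  · have := hS x y hxy (fun s hs hsI => by
      have : s ∈ Metric.ball x r := by
        rw [Metric.mem_ball, Real.dist_eq, abs_lt]
        constructor <;> linarith [hsI.1, hsI.2]
      exact hb this hs)
    exact this.mp hxX
  · have := hS y x hxy (fun s hs hsI => by
      have : s ∈ Metric.ball x r := by
        rw [Metric.mem_ball, Real.dist_eq, abs_lt]
        constructor <;> linarith [hsI.1, hsI.2]
      exact hb this hs)
    exact this.mpr hxX

/-- the function that is `a` on `Q`, `b` on `E` and `0` elsewhere (for disjoint `Q` and `E`) -/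
noncomputable def two (Q E : Set ℝ) (a b : ℝ) : ℝ → ℝ :=
  fun x => Q.indicator (fun _ => a) x + E.indicator (fun _ => b) x

theorem two_pc {Q E : Set ℝ} (hQ : PC (fun x => x ∈ Q)) (hE : PC (fun x => x ∈ E)) (a b : ℝ) :
    PC (two Q E a b) := by
  classical
  obtain ⟨S, hS⟩ := hQ
  obtain ⟨T, hT⟩ := hE
  refine ⟨S ∪ T, ?_⟩
  intro x y hxy h
  have h1 := hS x y hxy (fun s hs => h s (Finset.mem_union_left _ hs))
  have h2 := hT x y hxy (fun s hs => h s (Finset.mem_union_right _ hs))
  simp only [eq_iff_iff] at h1 h2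
  unfold two
  simp only [indicator, h1, h2]

theorem integral_two {Q E A : Set ℝ} (hQ : MeasurableSet Q) (hE : MeasurableSet E)
    (hQ1 : Q ⊆ Icc 0 1) (hE1 : E ⊆ Icc 0 1) (a b : ℝ) :
    ∫ x in A, two Q E a b x = a * volume.real (A ∩ Q) + b * volume.real (A ∩ E) := by
  have hf : ∀ B : Set ℝ, MeasurableSet B → B ⊆ Icc 0 1 → ∀ c : ℝ,
      Integrable (B.indicator (fun _ => c)) (volume.restrict A) := by
    intro B hB hB1 c
    apply Integrable.restrict
    rw [integrable_indicator_iff hB]
    have : volume B ≠ ⊤ := by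
      refine ne_top_of_le_ne_top ?_ (measure_mono hB1)
      simp
    exact integrableOn_const this
  unfold two
  rw [integral_add (hf Q hQ hQ1 a) (hf E hE hE1 b), integral_indicator hQ, integral_indicator hE,
    integral_const, integral_const]
  simp only [Measure.real, Measure.restrict_restrict hQ, Measure.restrict_restrict hE,
    Measure.restrict_apply_univ, smul_eq_mul]
  rw [inter_comm Q A, inter_comm E A]
  ring

/-- the density that is `a` on `Q`, `b` on `E` and `0` elsewhere -/
noncomputable def mk (Q E : Set ℝ) (hQ : PC (fun x => x ∈ Q)) (hE : PC (fun x => x ∈ E))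
    (hQ1 : Q ⊆ Icc 0 1) (hE1 : E ⊆ Icc 0 1) (a b : ℝ) (ha : 0 < a) (hb : 0 ≤ b)
    (hpos : 0 < volume.real Q) : Density where
  toFun := two Q E a b
  nonneg := fun x => by
    unfold two
    have h1 : 0 ≤ Q.indicator (fun _ => a) x := indicator_nonneg (fun _ _ => ha.le) x
    have h2 : 0 ≤ E.indicator (fun _ => b) x := indicator_nonneg (fun _ _ => hb) x
    linarith
  outside := fun x hx => by
    unfold two
    rw [indicator_of_notMem (fun h => hx (hQ1 h)), indicator_of_notMem (fun h => hx (hE1 h)),
      add_zero]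
  pc := two_pc hQ hE a b
  positive := by
    rw [integral_two hQ.measurableSet hE.measurableSet hQ1 hE1, inter_eq_self_of_subset_right hQ1]
    have h1 : 0 ≤ b * volume.real (Icc 0 1 ∩ E) := mul_nonneg hb measureReal_nonneg
    have h2 : 0 < a * volume.real Q := mul_pos ha hpos
    linarith

theorem mk_value (Q E : Set ℝ) (hQ : PC (fun x => x ∈ Q)) (hE : PC (fun x => x ∈ E))
    (hQ1 : Q ⊆ Icc 0 1) (hE1 : E ⊆ Icc 0 1) (a b : ℝ) (ha : 0 < a) (hb : 0 ≤ b)
    (hpos : 0 < volume.real Q) (A : Set ℝ) :
    (mk Q E hQ hE hQ1 hE1 a b ha hb hpos).value A =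
      a * volume.real (A ∩ Q) + b * volume.real (A ∩ E) := by
  unfold Density.value mk
  exact integral_two hQ.measurableSet hE.measurableSet hQ1 hE1 a b

theorem pc_Icc (a b : ℝ) : PC (fun x => x ∈ Icc a b) := by
  refine ⟨{a, b}, ?_⟩
  intro x y hxy h
  have ha := h a (by simp)
  have hb := h b (by simp)
  simp only [mem_Icc, not_and_or, not_le] at ha hb
  simp only [mem_Icc, eq_iff_iff]
  constructor
  · rintro ⟨h1, h2⟩
    refine ⟨h1.trans hxy, ?_⟩
    rcases hb with hb | hb
    · linarith
    · exact hb.le
  · rintro ⟨h1, h2⟩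
    refine ⟨?_, hxy.trans h2⟩
    rcases ha with ha | ha
    · exact ha.le
    · linarith

theorem pc_inter {X Y : Set ℝ} (hX : PC (fun x => x ∈ X)) (hY : PC (fun x => x ∈ Y)) :
    PC (fun x => x ∈ X ∩ Y) := by
  classical
  obtain ⟨S, hS⟩ := hX
  obtain ⟨T, hT⟩ := hY
  refine ⟨S ∪ T, fun x y hxy h => ?_⟩
  have h1 := hS x y hxy (fun s hs => h s (Finset.mem_union_left _ hs))
  have h2 := hT x y hxy (fun s hs => h s (Finset.mem_union_right _ hs))
  simp only [eq_iff_iff] at h1 h2
  simp only [mem_inter_iff, h1, h2]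

theorem pc_diff {X Y : Set ℝ} (hX : PC (fun x => x ∈ X)) (hY : PC (fun x => x ∈ Y)) :
    PC (fun x => x ∈ X \ Y) := by
  classical
  obtain ⟨S, hS⟩ := hX
  obtain ⟨T, hT⟩ := hY
  refine ⟨S ∪ T, fun x y hxy h => ?_⟩
  have h1 := hS x y hxy (fun s hs => h s (Finset.mem_union_left _ hs))
  have h2 := hT x y hxy (fun s hs => h s (Finset.mem_union_right _ hs))
  simp only [eq_iff_iff] at h1 h2
  simp only [mem_sdiff, h1, h2]

theorem pc_empty : PC (fun x : ℝ => x ∈ (∅ : Set ℝ)) := ⟨∅, fun x y _ _ => by simp⟩

theorem fin_vol {X : Set ℝ} (h : X ⊆ Icc (0 : ℝ) 1) : volume X ≠ ⊤ :=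
  ne_top_of_le_ne_top (by simp) (measure_mono h)

/-- No truthful mechanism for `n ≥ 2` agents, even one that may discard cake, is positive and gives
every agent the part of the cake which only this agent values. -/
theorem result (n : ℕ) (hn : 2 ≤ n) (M : Mechanism n) (hT : M.Truthful)
    (hC : M.RespectsSoleClaimants) :
    ∃ (f : Fin n → Density) (i : Fin n), (f i).value (M.piece f i) = 0 := by
  by_contra hcon
  push Not at hcon
  have hpos : ∀ (f : Fin n → Density) (i : Fin n), 0 < (f i).value (M.piece f i) := fun f i =>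
    lt_of_le_of_ne (integral_nonneg fun x => (f i).nonneg x) (hcon f i).symm
  classical
  -- the two agents
  let a : Fin n := ⟨0, by omega⟩
  let b : Fin n := ⟨1, by omega⟩
  have hab : a ≠ b := by
    intro h
    have := congrArg Fin.val h
    simp [a, b] at this
  -- the regions
  let Y : Set ℝ := Icc 0 (1 / 2)
  let Z : Set ℝ := Icc (3 / 4) 1
  have hY1 : Y ⊆ Icc 0 1 := Icc_subset_Icc le_rfl (by norm_num)
  have hZ1 : Z ⊆ Icc 0 1 := Icc_subset_Icc (by norm_num) le_rfl
  have hYv : volume.real Y = 1 / 2 := by
    simp [Y, Measure.real]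
  have hZv : 0 < volume.real Z := by
    simp [Z, Measure.real]
    norm_num
  have hYZ : ∀ x ∈ Y, x ∉ Z := by
    intro x hx hx'
    have h1 : x ≤ 1 / 2 := hx.2
    have h2 : 3 / 4 ≤ x := hx'.1
    linarith
  let dY : Density := mk Y ∅ (pc_Icc _ _) pc_empty hY1 (empty_subset _) 1 0 one_pos le_rfl
    (by rw [hYv]; norm_num)
  let dZ : Density := mk Z ∅ (pc_Icc _ _) pc_empty hZ1 (empty_subset _) 1 0 one_pos le_rfl hZv
  -- the base profile
  let F0 : Fin n → Density := fun i => if i = a ∨ i = b then dY else dZ
  have hF0b : F0 b = dY := by simp [F0]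
  let Q : Set ℝ := M.piece F0 b ∩ Y
  let E : Set ℝ := Y \ Q
  have hQpc : PC (fun x => x ∈ Q) := pc_inter (M.union_of_intervals F0 b) (pc_Icc _ _)
  have hEpc : PC (fun x => x ∈ E) := pc_diff (pc_Icc _ _) hQpc
  have hQY : Q ⊆ Y := inter_subset_right
  have hEY : E ⊆ Y := sdiff_subset
  have hQ1 : Q ⊆ Icc 0 1 := hQY.trans hY1
  have hE1 : E ⊆ Icc 0 1 := hEY.trans hY1
  have hQm := hQpc.measurableSet
  have hEm := hEpc.measurableSet
  have hQv : 0 < volume.real Q := by
    have h1 := hpos F0 b
    rw [hF0b] at h1
    have h2 := mk_value Y ∅ (pc_Icc _ _) pc_empty hY1 (empty_subset _) 1 0 one_pos le_rfl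
      (by rw [hYv]; norm_num) (M.piece F0 b)
    change 0 < dY.value _ at h1
    change dY.value _ = _ at h2
    rw [h2] at h1
    simpa using h1
  let dQ : Density := mk Q ∅ hQpc pc_empty hQ1 (empty_subset _) 1 0 one_pos le_rfl hQv
  have vY : ∀ A, dY.value A = volume.real (A ∩ Y) := by
    intro A
    have := mk_value Y ∅ (pc_Icc _ _) pc_empty hY1 (empty_subset _) 1 0 one_pos le_rfl
      (by rw [hYv]; norm_num) A
    change dY.value A = _ at this
    rw [this]; ring
  have vQ : ∀ A, dQ.value A = volume.real (A ∩ Q) := by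
    intro A
    have := mk_value Q ∅ hQpc pc_empty hQ1 (empty_subset _) 1 0 one_pos le_rfl hQv A
    change dQ.value A = _ at this
    rw [this]; ring
  -- agent `b` reports `Q`
  let F1 : Fin n → Density := Function.update F0 b dQ
  have hF1b : F1 b = dQ := by simp [F1]
  have hF1a : F1 a = dY := by simp [F1, hab, F0]
  have hupd : Function.update F1 b dY = F0 := by
    simp only [F1, Function.update_idem]
    rw [← hF0b]
    exact Function.update_eq_self b F0
  have h1 : volume.real Q ≤ volume.real (M.piece F1 b ∩ Q) := by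
    have := hT F1 b dY
    rw [hF1b, hupd, vQ, vQ] at this
    have h2 : M.piece F0 b ∩ Q = Q := inter_eq_self_of_subset_right inter_subset_left
    rwa [h2] at this
  -- so agent `a` gets nothing of `Q`
  have h2 : volume.real (M.piece F1 a ∩ Q) = 0 := by
    have hd : Disjoint (M.piece F1 a ∩ Q) (M.piece F1 b ∩ Q) :=
      (M.disjoint F1 a b hab).mono inter_subset_left inter_subset_left
    have hm : MeasurableSet (M.piece F1 b ∩ Q) :=
      ((M.union_of_intervals F1 b).measurableSet).inter hQm
    have h3 := measureReal_union (μ := volume) hd hm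
      (fin_vol (inter_subset_right.trans hQ1)) (fin_vol (inter_subset_right.trans hQ1))
    have h4 : volume.real (M.piece F1 a ∩ Q ∪ M.piece F1 b ∩ Q) ≤ volume.real Q :=
      measureReal_mono (union_subset inter_subset_right inter_subset_right) (fin_vol hQ1)
    have h5 : 0 ≤ volume.real (M.piece F1 a ∩ Q) := measureReal_nonneg
    linarith
  -- agent `a` reports `Q` as well
  let F3 : Fin n → Density := Function.update F1 a dQ
  have hF3a : F3 a = dQ := by simp [F3]
  have hc : 0 < volume.real (M.piece F3 a ∩ Q) := by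
    have := hpos F3 a
    rw [hF3a, vQ] at this
    exact this
  set c := volume.real (M.piece F3 a ∩ Q) with hcdef
  -- agent `a` reports `1` on `Q` and `c` on `E`
  let dE : Density := mk Q E hQpc hEpc hQ1 hE1 1 c one_pos hc.le hQv
  have vE : ∀ A, dE.value A = volume.real (A ∩ Q) + c * volume.real (A ∩ E) := by
    intro A
    have := mk_value Q E hQpc hEpc hQ1 hE1 1 c one_pos hc.le hQv A
    change dE.value A = _ at this
    rw [this]; ring
  let F2 : Fin n → Density := Function.update F1 a dE
  have hF2a : F2 a = dE := by simp [F2]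
  have hF2b : F2 b = dQ := by simp [F2, hab.symm, hF1b]
  have hoth : ∀ j, j ≠ a → j ≠ b → F1 j = dZ ∧ F2 j = dZ := by
    intro j hja hjb
    have h3 : F1 j = dZ := by simp [F1, hjb, F0, hja]
    exact ⟨h3, by simp [F2, hja, h3]⟩
  -- values of the densities
  have zQ : ∀ x, x ∉ Q → dQ.toFun x = 0 := by
    intro x hx
    change two Q ∅ 1 0 x = 0
    simp [two, hx]
  have zZ : ∀ x, x ∉ Z → dZ.toFun x = 0 := by
    intro x hx
    change two Z ∅ 1 0 x = 0
    simp [two, hx]
  have pY : ∀ x ∈ Y, 0 < dY.toFun x := by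
    intro x hx
    change 0 < two Y ∅ 1 0 x
    simp [two, hx]
  have pE : ∀ x ∈ E, 0 < dE.toFun x := by
    intro x hx
    have hxQ : x ∉ Q := hx.2
    change 0 < two Q E 1 c x
    simp [two, hx, hxQ, hc]
  -- in both profiles agent `a` gets all of `E`
  have key : ∀ F : Fin n → Density, F b = dQ → (∀ j, j ≠ a → j ≠ b → F j = dZ) →
      (∀ x ∈ E, 0 < (F a).toFun x) → volume.real (M.piece F a ∩ E) = volume.real E := by
    intro F hb ho hp
    have h3 := hC F a
    have h4 : E \ M.piece F a ⊆ {x | 0 < (F a).toFun x ∧ (∀ j, j ≠ a → (F j).toFun x = 0) ∧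
        x ∉ M.piece F a} := by
      rintro x ⟨hxE, hxA⟩
      refine ⟨hp x hxE, ?_, hxA⟩
      intro j hj
      by_cases hjb : j = b
      · rw [hjb, hb]
        exact zQ x hxE.2
      · rw [ho j hj hjb]
        exact zZ x (hYZ x hxE.1)
    have h5 : volume (E \ M.piece F a) = 0 := measure_mono_null h4 h3
    have h6 := measureReal_inter_add_sdiff (μ := volume) (s := E) (t := M.piece F a)
      (M.union_of_intervals F a).measurableSet (fin_vol hE1)
    have h7 : volume.real (E \ M.piece F a) = 0 := by simp [Measure.real, h5]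
    rw [inter_comm]
    linarith
  have k1 : volume.real (M.piece F1 a ∩ E) = volume.real E :=
    key F1 hF1b (fun j h3 h4 => (hoth j h3 h4).1) (fun x hx => by
      rw [hF1a]; exact pY x hx.1)
  have k2 : volume.real (M.piece F2 a ∩ E) = volume.real E :=
    key F2 hF2b (fun j h3 h4 => (hoth j h3 h4).2) (fun x hx => by
      rw [hF2a]; exact pE x hx)
  -- splitting `Y` into `Q` and `E`
  have split : ∀ A, volume.real (A ∩ Y) = volume.real (A ∩ Q) + volume.real (A ∩ E) := by
    intro A
    have h3 := measureReal_inter_add_sdiff (μ := volume) (s := A ∩ Y) (t := Q) hQm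
      (fin_vol (inter_subset_right.trans hY1))
    have h4 : A ∩ Y ∩ Q = A ∩ Q := by
      ext x
      constructor
      · rintro ⟨⟨h5, _⟩, h7⟩; exact ⟨h5, h7⟩
      · rintro ⟨h5, h7⟩; exact ⟨⟨h5, hQY h7⟩, h7⟩
    have h5 : (A ∩ Y) \ Q = A ∩ E := by
      ext x
      constructor
      · rintro ⟨⟨h5, h6⟩, h7⟩; exact ⟨h5, h6, h7⟩
      · rintro ⟨h5, h6, h7⟩; exact ⟨⟨h5, h6⟩, h7⟩
    rw [h4, h5] at h3
    exact h3.symm
  -- type `Y` does not gain by reporting `dE`
  have t1 : volume.real (M.piece F2 a ∩ Q) ≤ 0 := by
    have h3 := hT F1 a dE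
    rw [hF1a, vY, vY, split, split] at h3
    change volume.real (M.piece F2 a ∩ Q) + volume.real (M.piece F2 a ∩ E) ≤ _ at h3
    rw [k1, k2, h2] at h3
    linarith
  -- type `dE` does not gain by reporting `dQ`
  have t2 := hT F2 a dQ
  have hupd2 : Function.update F2 a dQ = F3 := by
    simp only [F2, F3, Function.update_idem]
  rw [hF2a, hupd2, vE, vE, k2, ← hcdef] at t2
  have t3 : 0 ≤ c * volume.real (M.piece F3 a ∩ E) := mul_nonneg hc.le measureReal_nonneg
  have t4 : volume.real E ≤ 1 / 2 := by
    rw [← hYv]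
    exact measureReal_mono hEY (fin_vol hY1)
  nlinarith [mul_le_mul_of_nonneg_left t4 hc.le]

end Pool.Agent.Results.MP_b3d40b_lc.SoleClaimant
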